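import Pool.Agent.helper17.SG.SpecR

/-!
# Project sg: module R04 (upper bound for the hitting probabilities)
-/

set_option autoImplicit false

open MeasureTheory Set Metric Filter Topology
open scoped ENNReal NNReal ComplexConjugate

namespace Pool.Agent.SG

theorem R04_union {m₁ m₂ : Measure ℂ} {Γ : Type} [Nonempty Γ] [Countable Γ] (S : Γ → Set ℂ)
    (hS : ∀ w, MeasurableSet (S w)) (h : ∀ w E, MeasurableSet E → E ⊆ S w → m₁ E ≤ m₂ E) :
    m₁ (⋃ w, S w) ≤ m₂ (⋃ w, S w) := by
  obtain ⟨f, hf⟩ := exists_surjective_nat Γ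
  have e1 : (⋃ w, S w) = ⋃ n, disjointed (fun n => S (f n)) n := by
    rw [iUnion_disjointed]
    exact (hf.iUnion_comp S).symm
  have hm : ∀ n, MeasurableSet (disjointed (fun n => S (f n)) n) :=
    MeasurableSet.disjointed fun n => hS (f n)
  rw [e1, measure_iUnion (disjoint_disjointed _) hm, measure_iUnion (disjoint_disjointed _) hm]
  exact ENNReal.tsum_le_tsum fun n => h (f n) _ (hm n) (disjointed_subset _ n)

/-- R04: upper bound for the hitting probabilities -/
theorem R04 (hR2 : R02_stmt) (hR3 : R03_stmt) (hB5 : B05_stmt) (hB14 : B14_stmt) (hB16 : B16_stmt) :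
    R04_stmt := by
  classical
  intro Γ _ A W ν hs hac
  obtain ⟨hprob, -, -, hball, -⟩ := hB5
  obtain ⟨M, hM, h3⟩ := hR3 Γ A W ν hs hac
  obtain ⟨C, c, hC, hc, hmeas, hcon⟩ := h3 (1 / 4) (by norm_num)
  obtain ⟨C', hC', c₃, hc₃, h2⟩ := hR2 Γ A W ν hs hac c hc
  have hcnt : Countable Γ := (hB14 Γ A).2.1 hs.disc
  have hνp : IsProbabilityMeasure ν := hs.prob
  refine ⟨max 1 (4 / (3 * c₃)), le_max_left _ _, fun u => ?_⟩
  obtain ⟨cu, hcu, hw⟩ := h2 u
  -- the sets
  have key : ∀ w : Γ, ∃ S : Set ℂ, MeasurableSet S ∧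
      (∀ E, MeasurableSet E → E ⊆ S → ENNReal.ofReal c₃ * W.hit 1 u * lam E ≤ A.ke u * ν E) ∧
      (ENNReal.ofReal (c * A.kk w) ≤ W.hit 1 w → S ⊆ closedBall (A.pt w) (C' * A.kk w) ∧
        ENNReal.ofReal (cu * A.kk w) ≤ lam S) := by
    intro w
    by_cases hg : ENNReal.ofReal (c * A.kk w) ≤ W.hit 1 w
    · obtain ⟨S, h1, h2, h3, h4⟩ := hw w hg
      exact ⟨S, h1, h4, fun _ => ⟨h2, h3⟩⟩
    · refine ⟨∅, MeasurableSet.empty, fun E _ hE => ?_, fun h => absurd h hg⟩
      rw [subset_empty_iff.mp hE]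
      simp
  choose S hSm hSE hSb using key
  set U : Set ℂ := ⋃ w, S w with hU
  have hUm : MeasurableSet U := MeasurableSet.iUnion hSm
  have hUle : ENNReal.ofReal c₃ * W.hit 1 u * lam U ≤ A.ke u * ν U := by
    have := R04_union (m₁ := (ENNReal.ofReal c₃ * W.hit 1 u) • lam) (m₂ := A.ke u • ν) S hSm
      (fun w E hE hES => by
        rw [Measure.smul_apply, Measure.smul_apply, smul_eq_mul, smul_eq_mul]
        exact hSE w E hE hES)
    rwa [Measure.smul_apply, Measure.smul_apply, smul_eq_mul, smul_eq_mul] at this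
  -- the complement is null
  have hnull : lam (con A W M C c \ U) = 0 := by
    refine hB16 lam _ (hmeas.diff hUm) (Eventually.of_forall fun η hη => ?_)
    have hCC : 0 < C + C' := by linarith
    refine ⟨cu / (C + C'), div_pos hcu hCC, fun δ hδ => ?_⟩
    obtain ⟨k, hk⟩ : ∃ k : ℕ, (1 / 2 : ℝ) ^ k < δ / (C + C') :=
      exists_pow_lt_of_lt_one (div_pos hδ hCC) (by norm_num)
    obtain ⟨n, hn, -, w, hw1, hw2, hw3, hw4⟩ := hη.1 k
    have hkk : 0 < A.kk w := lt_of_lt_of_le (div_pos (by positivity) (by linarith)) hw1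
    have hpow : (1 / 2 : ℝ) ^ n ≤ (1 / 2 : ℝ) ^ k :=
      pow_le_pow_of_le_one (by norm_num) (by norm_num) hn
    obtain ⟨hS1, hS2⟩ := hSb w hw4
    refine ⟨(C + C') * A.kk w, mul_pos hCC hkk, ?_, S w, hSm w, ?_, ?_, ?_⟩
    · calc (C + C') * A.kk w ≤ (C + C') * (1 / 2 : ℝ) ^ k :=
            mul_le_mul_of_nonneg_left (hw2.trans hpow) hCC.le
        _ < (C + C') * (δ / (C + C')) := mul_lt_mul_of_pos_left hk hCC
        _ = δ := by field_simp
    · intro z hz
      have h1 : dist z (A.pt w) ≤ C' * A.kk w := hS1 hz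
      have h2 : dist (A.pt w) η ≤ C * A.kk w := by
        rw [dist_comm, dist_eq_norm]
        exact hw3
      rw [mem_closedBall]
      calc dist z η ≤ dist z (A.pt w) + dist (A.pt w) η := dist_triangle _ _ _
        _ ≤ C' * A.kk w + C * A.kk w := add_le_add h1 h2
        _ = (C + C') * A.kk w := by ring
    · refine Set.disjoint_left.mpr fun z hz hz' => hz'.2 ?_
      exact mem_iUnion.mpr ⟨w, hz⟩
    · calc ENNReal.ofReal (cu / (C + C')) * lam (closedBall η ((C + C') * A.kk w))
          ≤ ENNReal.ofReal (cu / (C + C')) * ENNReal.ofReal ((C + C') * A.kk w) := by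
            gcongr
            exact hball η _ (mul_pos hCC hkk).le
        _ = ENNReal.ofReal (cu * A.kk w) := by
            rw [← ENNReal.ofReal_mul (div_pos hcu hCC).le]
            congr 1
            field_simp
        _ ≤ lam (S w) := hS2
  have h34 : (3 / 4 : ℝ≥0∞) ≤ lam U := by
    have h1 : (1 : ℝ≥0∞) ≤ lam (con A W M C c) + 1 / 4 := by
      calc (1 : ℝ≥0∞) = lam univ := (measure_univ).symm
        _ ≤ lam (con A W M C c) + lam (con A W M C c)ᶜ := by
            rw [← union_compl_self (con A W M C c)]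
            exact measure_union_le _ _
        _ ≤ _ := by gcongr
    have h2 : lam (con A W M C c) ≤ lam U := by
      calc lam (con A W M C c) ≤ lam (U ∪ (con A W M C c \ U)) :=
            measure_mono fun z hz => by
              by_cases hzU : z ∈ U
              · exact Or.inl hzU
              · exact Or.inr ⟨hz, hzU⟩
        _ ≤ lam U + lam (con A W M C c \ U) := measure_union_le _ _
        _ = lam U := by rw [hnull, add_zero]
    have h3 : (1 : ℝ≥0∞) ≤ lam U + 1 / 4 := h1.trans (by gcongr)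
    have h4 : (3 / 4 : ℝ≥0∞) + 1 / 4 = 1 := by
      rw [ENNReal.div_add_div_same]
      norm_num
      exact ENNReal.div_self (by norm_num) (by norm_num)
    have h5 : (3 / 4 : ℝ≥0∞) + 1 / 4 ≤ lam U + 1 / 4 := h4.le.trans h3
    exact (ENNReal.add_le_add_iff_right (by norm_num)).mp h5
  have hfin : W.hit 1 u * ENNReal.ofReal (c₃ * (3 / 4)) ≤ ENNReal.ofReal (A.kk u) := by
    have h34' : ENNReal.ofReal (3 / 4) = 3 / 4 := by
      rw [ENNReal.ofReal_div_of_pos (by norm_num)]
      norm_num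
    calc W.hit 1 u * ENNReal.ofReal (c₃ * (3 / 4))
        = ENNReal.ofReal c₃ * W.hit 1 u * (3 / 4) := by
          rw [ENNReal.ofReal_mul hc₃.le, h34']
          ring
      _ ≤ ENNReal.ofReal c₃ * W.hit 1 u * lam U := by gcongr
      _ ≤ A.ke u * ν U := hUle
      _ ≤ A.ke u * 1 := by
          gcongr
          exact prob_le_one
      _ = ENNReal.ofReal (A.kk u) := mul_one _
  have hpos : 0 < c₃ * (3 / 4) := by positivity
  have h5 : W.hit 1 u ≤ ENNReal.ofReal (A.kk u / (c₃ * (3 / 4))) := by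
    rw [ENNReal.ofReal_div_of_pos hpos]
    rw [ENNReal.le_div_iff_mul_le (Or.inl (by simpa using hpos)) (Or.inl ENNReal.ofReal_ne_top)]
    exact hfin
  refine h5.trans ?_
  rcases le_or_gt (A.kk u) 0 with hk | hk
  · rw [ENNReal.ofReal_of_nonpos (div_nonpos_of_nonpos_of_nonneg hk hpos.le)]
    exact zero_le
  · refine ENNReal.ofReal_le_ofReal ?_
    calc A.kk u / (c₃ * (3 / 4)) = 4 / (3 * c₃) * A.kk u := by field_simp
      _ ≤ max 1 (4 / (3 * c₃)) * A.kk u := mul_le_mul_of_nonneg_right (le_max_right _ _) hk.le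

end Pool.Agent.SG
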