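import Pool.Agent.helper56.SG.SpecG

/-!
# Project sg: module UNF (unfolding)
-/

set_option autoImplicit false

open MeasureTheory Set Metric Filter Topology
open scoped ENNReal NNReal ComplexConjugate
open Pool.Agent.SG

noncomputable section

namespace Pool.Agent.SGG

theorem UNF_ae (hHYC : HYC_stmt) {g h : ℂ → ℝ} (H : ∀ z ∈ ball (0 : ℂ) 1, g z = h z) :
    ∫ z, g z ∂hyp = ∫ z, h z ∂hyp := by
  refine integral_congr_ae ?_
  have h0 : hyp (ball (0 : ℂ) 1)ᶜ = 0 := hHYC.1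
  have h1 : ∀ᵐ z ∂hyp, z ∈ ball (0 : ℂ) 1 := by
    rw [ae_iff]
    exact h0
  filter_upwards [h1] with z hz
  exact H z hz

theorem UNF_cont (hMOB : MOB_stmt) {Γ : Type} [Group Γ] (A : DiscRep Γ) (γ : Γ) :
    ContinuousOn (A.act γ) (ball (0 : ℂ) 1) := by
  obtain ⟨-, -, -, -, -, h, -⟩ := hMOB (A.a γ) (A.b γ) (A.norm_eq γ)
  exact fun z hz => (h z hz).continuousAt.continuousWithinAt

theorem UNF_maps (hMOB : MOB_stmt) {Γ : Type} [Group Γ] (A : DiscRep Γ) (γ : Γ) :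
    MapsTo (A.act γ) (ball (0 : ℂ) 1) (ball (0 : ℂ) 1) := by
  obtain ⟨-, -, h, -⟩ := hMOB (A.a γ) (A.b γ) (A.norm_eq γ)
  exact fun z hz => h z hz

/-- UNF: unfolding -/
theorem UNF (hACT : ACT_stmt) (hMOB : MOB_stmt) (hHYC : HYC_stmt) (hCHV : CHV_stmt) : UNF_stmt := by
  classical
  intro Γ _ A χ r hP g ρ hg hρ hg0 S hS
  have hcomp : ∀ (u : ℂ → ℝ) (γ : Γ), CB u → CB fun z => u (A.act γ z) := fun u γ hu =>
    ContinuousOn.comp (g := u) hu (UNF_cont hMOB A γ) (UNF_maps hMOB A γ)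
  have hint := hHYC.2.2.2.2.2.1
  -- the partition
  have hpt : ∀ z ∈ ball (0 : ℂ) 1, g z = ∑ γ ∈ S, χ (A.act γ⁻¹ z) * g z := by
    intro z hz
    by_cases hgz : g z = 0
    · rw [hgz]
      simp
    have hzρ : ‖z‖ ≤ ρ := by
      by_contra h
      exact hgz (hg0 z hz (not_le.mp h))
    have h1 : ∑ γ ∈ S.image (fun γ => γ⁻¹), χ (A.act γ z) = 1 := by
      refine hP.one z hz _ fun γ hγ => ?_
      obtain ⟨-, hw, hinv, -⟩ := (hACT Γ A z hz).1 γ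
      have hwr : ‖A.act γ z‖ ≤ r := by
        by_contra h
        exact hγ (hP.supp _ hw (not_le.mp h))
      have : γ⁻¹ ∈ S := hS γ⁻¹ ⟨A.act γ z, hwr, by rw [hinv]; exact hzρ⟩
      exact Finset.mem_image.mpr ⟨γ⁻¹, this, inv_inv γ⟩
    rw [Finset.sum_image (fun a _ b _ h => inv_injective h)] at h1
    rw [← Finset.sum_mul, h1, one_mul]
  have e1 : ∫ z, g z ∂hyp = ∫ z, ∑ γ ∈ S, χ (A.act γ⁻¹ z) * g z ∂hyp := UNF_ae hHYC hpt
  have i1 : ∀ γ ∈ S, Integrable (fun z => χ (A.act γ⁻¹ z) * g z) hyp := by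
    intro γ _
    refine hint _ ((hcomp χ γ⁻¹ hP.cb).mul hg) ρ hρ fun z hz hz' => ?_
    rw [hg0 z hz hz', mul_zero]
  have i2 : ∀ γ ∈ S, Integrable (fun y => χ y * g (A.act γ y)) hyp := by
    intro γ _
    refine hint _ (hP.cb.mul (hcomp g γ hg)) r hP.r1 fun z hz hz' => ?_
    rw [hP.supp z hz hz', zero_mul]
  have e2 : ∀ γ ∈ S, ∫ z, χ (A.act γ⁻¹ z) * g z ∂hyp = ∫ y, χ y * g (A.act γ y) ∂hyp := by
    intro γ _
    have h1 := hCHV (A.a γ) (A.b γ) (A.norm_eq γ) (fun z => χ (A.act γ⁻¹ z) * g z)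
      ((hcomp χ γ⁻¹ hP.cb).mul hg)
    rw [← h1]
    refine UNF_ae hHYC fun z hz => ?_
    obtain ⟨-, -, hinv, -⟩ := (hACT Γ A z hz).1 γ
    change χ (A.act γ⁻¹ (A.act γ z)) * g (A.act γ z) = χ z * g (A.act γ z)
    rw [hinv]
  rw [e1, integral_finsetSum S i1, Finset.sum_congr rfl e2, ← integral_finsetSum S i2]
  refine integral_congr_ae (Eventually.of_forall fun y => ?_)
  exact (Finset.mul_sum S _ _).symm

end Pool.Agent.SGG
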